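import Pool.Agent.Work.MP_8f87b2_fin.PartTop
import Pool.Agent.Work.MP_8f87b2_fin.Jvk

/-!
# The class `(V; a + 1, 0)` of odd size with a window at its pile

`cls_w0`: pairs over the hops, one window `{cyc w}` over the pile (`m = 0`). `part_w0`: with the even class `(V; a, 2)`.
-/

set_option autoImplicit false

namespace Pool.OddHC

open Finset BinaryTree Multiset Pool.OddHop

variable {j2 k : ℕ} {τ : Type} {P : τ → Set (Cyc k) → DG k → Prop} {V : Cyc j2}

/-- **the class `(V; b, 0)` of odd size**: the window of the pile and pairs -/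
theorem cls_w0 {b : ℕ} (_hk : j2 + 2 * pkc V + 2 * b = k) (ho : oddF j2 b) (win0 : NodeW k V (Typd P P) b 0)
    (jvk : JVK P V b) : ClsReg P (vcl k V b : Set (RD × Multiset ℕ)) := by
  obtain ⟨v, x2, u, x, w, b1, b2, b3, b4, b5, b6, b7, b8⟩ := win0.data (j := j2 + pkc V + b) rfl
  have hw : cl (cyc w) ∈ vcl k V b := (vcl_iff b5 b6).2 rfl
  refine ⟨{{cyc w}}, ?_, ?_, ?_⟩
  · intro F hF
    rw [Set.mem_singleton_iff] at hF
    subst hF
    refine ⟨⟨cyc w, rfl⟩, b4, ?_⟩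
    rintro c rfl
    exact hw
  · intro F hF F' hF' c _ _
    rw [Set.mem_singleton_iff] at hF hF'
    rw [hF, hF']
  · rw [inG_single]
    intro p0 hp0
    exact jvk _ v x2 u (cyc w) b1 b2 b5 ho p0 _ hp0 (fun c _ => Iff.rfl)

/-- **PART W0**: the class `(V; a, 2)` is even, the class `(V; a + 1, 0)` is odd: a window `m = 0` -/
theorem part_w0 (a : ℕ) (hk : j2 + 2 * pkc V + 2 * a + 2 = k)
    (env : ∀ p0 : Cyc k, Rd (Rd p0).2 = ⟨j2, V⟩ → ClsEnv (AEP P) P P (cl p0))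
    (h1 : oddF j2 (a + 1)) (h2 : a = 0 → ¬ oddF (j2 + pkc V) 2)
    (win : 1 ≤ a → NodeW k V (Typd P P) a 2) (win0 : NodeW k V (Typd P P) (a + 1) 0)
    (jvk : JVK P V (a + 1)) : ClsReg P (vcl k V a ∪ vcl k V (a + 1) : Set (RD × Multiset ℕ)) := by
  refine ClsReg.union ?_ (cls_w0 (by omega) h1 win0 jvk) ?_
  · rcases Nat.eq_zero_or_pos a with ha | ha
    · subst ha
      exact part_even 2 (by norm_num) (by omega) env (h2 rfl)
    · exact part_win a 2 ha (by norm_num) hk env (win ha)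
  · rintro κ ⟨p, rfl, h3, h4⟩ ⟨q, h5, h6, h7⟩
    have h8 : cl p ∈ vcl k V a := ⟨p, rfl, h3, h4⟩
    have h9 : cl q ∈ vcl k V (a + 1) := ⟨q, rfl, h6, h7⟩
    exact vcl_ne h9 h8 (by omega) h5

end Pool.OddHC
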