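import Pool.Agent.Work.MP_8f87b2_h42.Sq2
import Pool.Agent.Work.MP_8f87b2_h6.TyJ3V

/-!
# Existence of J3V over `R = C(C(v, a δ₁), 0)`

`V = cyc v` has at least two solitons, `u = C(v, a δ₁)`: the squares of `R = inf u` are directly behind the first letter.
`sqd`: the data `SqD` with `B = inf (inf B(v))`. `j3ok`: the conditions `J3OK` (for `a = 0` the group of `v` must not contain `1`).
-/

set_option autoImplicit false

namespace Pool.OddHC

open Finset BinaryTree Multiset Pool.OddHop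

namespace J3Ex

variable {j j2 k : ℕ}

/-- `a` beads in the gap 1 and one bead in the gap `p` -/
def cf {n : ℕ} (a : ℕ) (p : ZMod n) : ZMod n → ℕ := fun z => (if z = 1 then a else 0) + if z = p then 1 else 0

theorem cf_sum {n : ℕ} [NeZero n] (a : ℕ) (p : ZMod n) : ∑ z, cf a p z = a + 1 := by
  unfold cf
  rw [Finset.sum_add_distrib, Finset.sum_ite_eq' univ (1 : ZMod n) (fun _ => a),
    Finset.sum_ite_eq' univ p (fun _ => 1), if_pos (mem_univ _), if_pos (mem_univ _)]

theorem conf_eq {n : ℕ} {a : ℕ} {p q t : ZMod n} (h : ∀ x, cf a p x = cf a q (x + t)) (hp : p ≠ 1) :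
    (a = 0 ∧ q = p + t) ∨ (t = 0 ∧ p = q) ∨ (a = 1 ∧ p + q = 2) := by
  unfold cf at h
  have hx1 := h 1
  have hxp := h p
  rw [if_pos rfl, if_neg (Ne.symm hp)] at hx1
  rw [if_neg hp, if_pos rfl] at hxp
  have e0 : (1 + t = 1) ↔ t = 0 := add_eq_left
  by_cases ht : t = 0
  · subst ht
    right; left
    refine ⟨rfl, ?_⟩
    rw [add_zero, if_neg hp] at hxp
    by_contra hpq
    rw [if_neg hpq] at hxp
    omega
  · have h1 : ¬ (1 + t = 1) := fun h => ht (e0.1 h)
    rw [if_neg h1] at hx1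
    by_cases ha : a = 0
    · left
      refine ⟨ha, ?_⟩
      subst ha
      by_contra hq
      have hq' : ¬ (p + t = q) := fun h => hq h.symm
      rw [if_neg hq'] at hxp
      split at hxp <;> omega
    · by_cases hq : 1 + t = q
      · rw [if_pos hq] at hx1
        right; right
        refine ⟨by omega, ?_⟩
        by_cases h2 : p + t = q
        · exfalso
          apply hp
          have := h2.trans hq.symm
          exact add_right_cancel this
        · rw [if_neg h2] at hxp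
          by_cases h3 : p + t = 1
          · linear_combination h3 - hq
          · rw [if_neg h3] at hxp
            omega
      · rw [if_neg hq] at hx1
        omega

/-! ### Words -/

theorem lf_one (A C : BinaryTree Unit) (a : ℕ) {n : ℕ} (hn : n = (A △ C).numNodes) :
    lf (fun z : ZMod (2 * n + 1) => if z = 1 then a else 0) = holeL .nil A C a := by
  have hn1 : n = A.numNodes + C.numNodes + 1 := hn
  symm
  apply lf_of_getD
  · rw [holeL_length, hn]
    rfl
  · intro z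
    have hz : z = 1 ↔ z.val = 1 := by
      have := val_eq_iff z (x := 1) (by omega)
      rw [Nat.cast_one] at this
      exact this.symm
    have e1 : holeL .nil A C a = 0 :: a :: (List.replicate (2 * A.numNodes) 0 ++
        List.replicate (2 * C.numNodes + 1) 0) := rfl
    rw [e1]
    rcases h : z.val with _ | _ | m
    · rw [if_neg (by rw [hz, h]; omega)]; rfl
    · rw [if_pos (by rw [hz, h])]; rfl
    · rw [if_neg (by rw [hz, h]; omega), List.getD_cons_succ, List.getD_cons_succ,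
        List.replicate_append_replicate, List.getD_eq_getElem?_getD, List.getElem?_replicate]
      split <;> rfl

theorem u_word {v : X j2} {A C : BinaryTree Unit} (hv : v.1 = A △ C) (a : ℕ) :
    ins v.1 (lf (fun z : ZMod (2 * j2 + 1) => if z = 1 then a else 0)) = lv a (inf1 A) △ inf C := by
  rw [lf_one A C a (by rw [← hv, X_num]), hv]
  exact ins_hole .nil A C a

theorem node_of {v : X j2} (hj : 1 ≤ j2) : ∃ A C : BinaryTree Unit, v.1 = A △ C := by
  have h := X_num v
  cases hv : v.1 with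
  | nil => rw [hv] at h; change 0 = j2 at h; omega
  | node _ A C => exact ⟨A, C, rfl⟩

theorem nn {v : X j2} (hj : 1 ≤ j2) : v.1 ≠ .nil := by
  obtain ⟨A, C, h⟩ := node_of (v := v) hj
  rw [h]; simp

theorem inf_word (u : X j) : inf u.1 = ins u.1 (lf (fun _ : ZMod (2 * j + 1) => 0)) := by
  rw [lf_zero]
  unfold inf
  rw [X_num]

/-- the star over `v` moves in two steps -/
theorem sp_ne {v : X j2} (hj : 1 ≤ j2) : sp v 2 ≠ 0 := by
  rw [Sq2.sp_two v (nn hj)]
  intro h
  rw [neg_eq_zero, ZMod.natCast_eq_zero_iff] at h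
  have h1 := Nat.le_of_dvd (by omega) h
  have h2 := Tsq.sq_num (nn (v := v) hj)
  have h3 : 1 ≤ (Tsq.sq v.1).1.numNodes := by
    obtain ⟨X, Y, e, _⟩ := Sq2.first v.1 (nn hj)
    rw [e]
    change 1 ≤ X.numNodes + Y.numNodes + 1
    omega
  rw [X_num] at h2
  omega

/-- a multiset of at least two positive numbers -/
theorem sup_lt_sum {M : Multiset ℕ} (hpos : ∀ x ∈ M, 1 ≤ x) (hc : 2 ≤ Multiset.card M) : M.sup < M.sum := by
  have h0 : M ≠ 0 := by
    rintro rfl
    simp at hc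
  have h1 := sup_mem h0
  obtain ⟨M', hM'⟩ := Multiset.exists_cons_of_mem h1
  have h2 : 1 ≤ M'.sum := by
    have h3 : M' ≠ 0 := by
      rintro rfl
      rw [hM'] at hc
      simp at hc
    obtain ⟨y, hy⟩ := Multiset.exists_mem_of_ne_zero h3
    have h4 : y ∈ M := by rw [hM']; exact Multiset.mem_cons_of_mem hy
    exact (hpos y h4).trans (Multiset.single_le_sum (fun _ _ => Nat.zero_le _) y hy)
  have h5 : M.sum = M.sup + M'.sum := by
    conv_lhs => rw [hM']
    rw [Multiset.sum_cons]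
  omega

variable {a : ℕ} {v : X j2} {u : X j}

/-- the data -/
structure Dat (k : ℕ) (a : ℕ) (v : X j2) (u : X j) : Prop where
  hu : u.1 = ins v.1 (lf (fun z : ZMod (2 * j2 + 1) => if z = 1 then a else 0))
  two : 2 ≤ Multiset.card (cont v.1)
  hk : j + pkn u.1 + 2 = k
  g : a = 0 → (1 : ZMod (2 * j2 + 1)) ∉ rotGrp v

theorem Dat.jj (h : Dat k a v u) : 2 ≤ j2 := by
  have h1 := cont_sum v.1
  rw [X_num] at h1
  have h2 := sup_lt_sum (cont_pos v.1) h.two
  have h3 : 1 ≤ (cont v.1).sup := by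
    have h0 : cont v.1 ≠ 0 := by
      intro h4
      have := h.two
      rw [h4] at this
      simp at this
    exact cont_pos v.1 _ (sup_mem h0)
  omega

theorem Dat.size (h : Dat k a v u) : j = j2 + pkn v.1 + a ∧ pkn u.1 = pkn v.1 + a := by
  have h1 := ins_num v.1 (lf (fun z : ZMod (2 * j2 + 1) => if z = 1 then a else 0))
    (by rw [lf_length, X_num])
  have h2 : (lf (fun z : ZMod (2 * j2 + 1) => if z = 1 then a else 0)).sum = a := by
    rw [lf_sum, Finset.sum_ite_eq' univ (1 : ZMod (2 * j2 + 1)) (fun _ => a), if_pos (mem_univ _)]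
  rw [h2, ← h.hu, X_num, X_num] at h1
  exact h1

theorem Dat.sqd (h : Dat k a v u) :
    J3.SqD k (inf u.1) (inf (inf (Tsq.sq v.1).2)) (inf (Tsq.sq u.1).1) := by
  obtain ⟨A, C, hv⟩ := node_of (v := v) (by have := h.jj; omega)
  have hu : u.1 = lv a (inf1 A) △ inf C := h.hu.trans (u_word hv a)
  have hs := h.size
  constructor
  · rw [Sq2.sq_inf, hu, Sq2.sq_one, ← hv]
  · rw [ht_inf (by rw [hu]; simp), hu, ht_node, ht_lv a (inf1_ne_nil A), ht_inf1]
    omega
  · rw [cont_inf]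
    apply Multiset.count_eq_zero_of_notMem
    intro h1
    obtain ⟨x, hx, hx1⟩ := Multiset.mem_map.1 h1
    have := cont_pos u.1 x hx
    omega
  · rw [ht_eq, ← cont_sum]
    apply sup_lt_sum (cont_pos _)
    rw [cont_inf, Multiset.card_map, cont_card, hs.2, ← cont_card]
    have := h.two
    omega
  · have h1 := (ins_num u.1 (List.replicate (2 * u.1.numNodes + 1) 0) List.length_replicate).1
    rw [List.sum_replicate, X_num] at h1
    have h2 : (inf u.1).numNodes = j + pkn u.1 + (2 * j + 1) • 0 := by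
      unfold inf
      rw [X_num]
      exact h1
    rw [h2]
    have := h.hk
    simpa using this

/-- the reduced words of the places of the moving square -/
theorem Dat.w0 (h : Dat k a v u) (w : X k) : ∃ x : X (j + 1), x.1 = ins v.1 (lf (cf a (-1) : ZMod (2 * j2 + 1) → ℕ)) ∧
    Rd (cyc (J3.sX (inf u.1) (inf (inf (Tsq.sq v.1).2)) (inf (Tsq.sq u.1).1) w 0)) = ⟨j + 1, cyc x⟩ ∧
    (J3.sX (inf u.1) (inf (inf (Tsq.sq v.1).2)) (inf (Tsq.sq u.1).1) w 0).1 = inf x.1 := by
  have e1 : ins v.1 (lf (cf a (-1) : ZMod (2 * j2 + 1) → ℕ)) = app u.1 (.nil △ .nil) := by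
    rw [h.hu, ← ins_back]
    rfl
  obtain ⟨x, hx⟩ : ∃ x : X (j + 1), x.1 = app u.1 (.nil △ .nil) :=
    ⟨⟨_, mem_treesOfNumNodesEq.2 (by rw [num_app, X_num]; rfl)⟩, rfl⟩
  have hw := h.sqd.word w (i := 0) (by norm_num)
  have e2 : (J3.sX (inf u.1) (inf (inf (Tsq.sq v.1).2)) (inf (Tsq.sq u.1).1) w 0).1 = inf x.1 := by
    rw [hw, hx, inf_app_leaf]
    rfl
  exact ⟨x, hx.trans e1.symm, Rd_ins (lf_length _) (e2.trans (inf_word x)), e2⟩

theorem Dat.w4 (h : Dat k a v u) (w : X k) : ∃ x : X (j + 1), x.1 = ins v.1 (lf (cf a 0 : ZMod (2 * j2 + 1) → ℕ)) ∧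
    Rd (cyc (J3.sX (inf u.1) (inf (inf (Tsq.sq v.1).2)) (inf (Tsq.sq u.1).1) w 4)) = ⟨j + 1, cyc x⟩ := by
  have e1 : ins v.1 (lf (cf a 0 : ZMod (2 * j2 + 1) → ℕ)) = .nil △ u.1 := by
    rw [h.hu, ← ins_front]
    rfl
  obtain ⟨x, hx⟩ : ∃ x : X (j + 1), x.1 = .nil △ u.1 :=
    ⟨⟨_, mem_treesOfNumNodesEq.2 (by change 0 + u.1.numNodes + 1 = _; rw [X_num]; omega)⟩, rfl⟩
  have hw := h.sqd.word w (i := 4) (by norm_num)
  have e2 : (J3.sX (inf u.1) (inf (inf (Tsq.sq v.1).2)) (inf (Tsq.sq u.1).1) w 4).1 = inf x.1 := by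
    rw [hw, hx, inf_node]
    rfl
  exact ⟨x, hx.trans e1.symm, Rd_ins (lf_length _) (e2.trans (inf_word x))⟩

theorem Dat.w13 (h : Dat k a v u) (w : X k) (hB : (Tsq.sq v.1).2 = .nil) :
    ∃ x : X (j + 1), x.1 = ins v.1 (lf (cf a (sp v 2 - 1))) ∧
    Rd (cyc (J3.sX (inf u.1) (inf (inf (Tsq.sq v.1).2)) (inf (Tsq.sq u.1).1) w 13)) = ⟨j + 1, cyc x⟩ := by
  obtain ⟨A, C, hv⟩ := node_of (v := v) (by have := h.jj; omega)
  have hu : u.1 = lv a (inf1 A) △ inf C := h.hu.trans (u_word hv a)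
  have hBu : (Tsq.sq u.1).2 = .nil := by
    rw [hu, Sq2.sq_one, ← hv, hB, inf_nil]
  have hSu : ((TT ^ 2) u).1 = (Tsq.sq u.1).1 := by
    have := Tsq.TT_sq u (by rw [hu]; simp)
    rw [hBu] at this
    rw [pow_two, Equiv.Perm.mul_apply, this]
    rfl
  have hsz := h.size
  obtain ⟨x, hx⟩ : ∃ x : X (j + 1), x.1 = ins v.1 (lf (cf a (sp v 2 - 1))) :=
    ⟨⟨_, mem_treesOfNumNodesEq.2 (by
      have := (ins_num v.1 (lf (cf a (sp v 2 - 1))) (by rw [lf_length, X_num])).1
      rw [lf_sum, cf_sum, X_num] at this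
      omega)⟩, rfl⟩
  have e1 : ((TT ^ 2) x).1 = app (Tsq.sq u.1).1 (.nil △ .nil) := by
    rw [word_pow hx, ← hSu, word_pow h.hu, ← ins_back]
    congr 2
    funext z
    have g1 : (z + sp v 2 = sp v 2 - 1) ↔ z = -1 := by
      constructor
      · intro g
        linear_combination g
      · rintro rfl
        ring
    unfold cf
    simp only [g1]
  refine ⟨x, hx, ?_⟩
  rw [← cyc_pow' x 2]
  apply Rd_ins (lf_length _)
  rw [h.sqd.word w (by norm_num), ← inf_word, e1, inf_app_leaf, hB]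
  rfl

/-- two places over the same `v` -/
theorem cf_same {x y : X (j + 1)} {p q : ZMod (2 * j2 + 1)} (hx : x.1 = ins v.1 (lf (cf a p)))
    (hy : y.1 = ins v.1 (lf (cf a q))) (e : cyc x = cyc y) :
    ∃ t ∈ rotGrp v, ∀ z, cf a q z = cf a p (z + t) := by
  have h1 : x = phi v (cf a p) (word_phi hx) := Subtype.ext hx
  have h2 : y = phi v (cf a q) (word_phi hy) := Subtype.ext hy
  rw [h1, h2, cyc_eq, same_iff] at e
  obtain ⟨i, e1, e2⟩ := e
  exact ⟨sp v i, ⟨i, e1, rfl⟩, fun z => congrFun e2 z⟩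

theorem two_ne {n : ℕ} (hn : 5 ≤ n) {x : ℕ} (h0 : 0 < x) (h1 : x < 5) : ((x : ℕ) : ZMod n) ≠ 0 := by
  rw [Ne, ZMod.natCast_eq_zero_iff]
  intro h
  have := Nat.le_of_dvd h0 h
  omega

theorem Dat.n10 (h : Dat k a v u) (w : X k) :
    J3.sX (inf u.1) (inf (inf (Tsq.sq v.1).2)) (inf (Tsq.sq u.1).1) w 0 ≠
      J3.sX (inf u.1) (inf (inf (Tsq.sq v.1).2)) (inf (Tsq.sq u.1).1) w 10 := by
  intro e
  have h1 := h.sqd.link w (i := 0) (j := 10) (by simp)
  rw [← e] at h1
  obtain ⟨x, hx, _, hw⟩ := h.w0 w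
  have h2 : ((TT ^ 2) (J3.sX (inf u.1) (inf (inf (Tsq.sq v.1).2)) (inf (Tsq.sq u.1).1) w 0)) =
      J3.sX (inf u.1) (inf (inf (Tsq.sq v.1).2)) (inf (Tsq.sq u.1).1) w 0 := by
    rw [pow_two, Equiv.Perm.mul_apply]
    exact h1
  have h3 : (TT ^ 2) x = x := by
    have h4 := congrArg Subtype.val h2
    rw [word_pow (hw.trans (inf_word x)), hw, inf_word] at h4
    exact Subtype.ext (ins_inj (by rw [lf_length, X_num]) (by rw [lf_length, X_num]) h4).1
  have h5 : (TT ^ 2) v = v ∧ (fun z => cf a (-1) (z + sp v 2)) = cf a (-1) := by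
    have h4 := congrArg Subtype.val h3
    rw [word_pow hx, hx] at h4
    obtain ⟨g1, g2⟩ := ins_inj (by rw [lf_length, X_num]) (by rw [lf_length, X_num]) h4
    exact ⟨Subtype.ext g1, lf_inj g2⟩
  have hj := h.jj
  have hn : 5 ≤ 2 * j2 + 1 := by omega
  have hs := sp_ne (v := v) (by omega)
  have n2 := two_ne hn (x := 2) (by norm_num) (by norm_num)
  have n4 := two_ne hn (x := 4) (by norm_num) (by norm_num)
  push_cast at n2 n4
  rcases conf_eq (p := (-1 : ZMod (2 * j2 + 1))) (q := -1) (t := sp v 2) (a := a)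
    (fun z => (congrFun h5.2 z).symm) (by intro g; apply n2; linear_combination -g) with
    ⟨_, g⟩ | ⟨g, _⟩ | ⟨_, g⟩
  · apply hs
    linear_combination -g
  · exact hs g
  · apply n4
    linear_combination -g

/-- the group of `v` does not contain `1` if `a = 0` -/
theorem Dat.n4 (h : Dat k a v u) (w : X k) :
    cyc (J3.sX (inf u.1) (inf (inf (Tsq.sq v.1).2)) (inf (Tsq.sq u.1).1) w 4) ≠
      cyc (J3.sX (inf u.1) (inf (inf (Tsq.sq v.1).2)) (inf (Tsq.sq u.1).1) w 0) := by
  intro e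
  obtain ⟨x, hx, hx1, _⟩ := h.w0 w
  obtain ⟨y, hy, hy1⟩ := h.w4 w
  rw [e, hx1] at hy1
  have e1 : cyc x = cyc y := eq_of_heq (Sigma.mk.inj_iff.1 hy1).2
  obtain ⟨t, ht, h1⟩ := cf_same hx hy e1
  have hj := h.jj
  have hn : 5 ≤ 2 * j2 + 1 := by omega
  have n1 := two_ne hn (x := 1) (by norm_num) (by norm_num)
  have n3 := two_ne hn (x := 3) (by norm_num) (by norm_num)
  push_cast at n1 n3
  rcases conf_eq h1 (by intro g; exact n1 g.symm) with ⟨g0, g⟩ | ⟨_, g⟩ | ⟨_, g⟩
  · apply h.g g0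
    have : (1 : ZMod (2 * j2 + 1)) = -t := by linear_combination -g
    rw [this]
    exact (rotGrp v).neg_mem ht
  · apply n1
    linear_combination g
  · apply n3
    linear_combination -g

/-- the smallest case -/
theorem small_B (h : Dat k a v u) (hB : (Tsq.sq v.1).2 = .nil) : j2 ≠ 2 := by
  rintro rfl
  have h1 := cont_sum v.1
  rw [X_num] at h1
  have h2 := sup_lt_sum (cont_pos v.1) h.two
  rw [h1, ← ht_eq] at h2
  obtain ⟨A, C, hv⟩ := node_of (v := v) (by norm_num)
  have h3 := X_num v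
  rw [hv] at h2 h3
  rw [ht_node] at h2
  have hA : A = .nil := by
    by_contra hA
    have := ht_pos hA
    omega
  subst hA
  rw [hv, Tsq.sq_nil (by rw [Sq2.htT]; omega)] at hB
  change C = .nil at hB
  subst hB
  change 0 + 0 + 1 = 2 at h3
  omega

theorem Dat.b13 (h : Dat k a v u) (w : X k) (hB : (Tsq.sq v.1).2 = .nil) :
    cyc (J3.sX (inf u.1) (inf (inf (Tsq.sq v.1).2)) (inf (Tsq.sq u.1).1) w 13) ≠
      cyc (J3.sX (inf u.1) (inf (inf (Tsq.sq v.1).2)) (inf (Tsq.sq u.1).1) w 0) := by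
  intro e
  obtain ⟨x, hx, hx1, _⟩ := h.w0 w
  obtain ⟨y, hy, hy1⟩ := h.w13 w hB
  rw [e, hx1] at hy1
  have e1 : cyc x = cyc y := eq_of_heq (Sigma.mk.inj_iff.1 hy1).2
  obtain ⟨t, ht, h1⟩ := cf_same hx hy e1
  have hj := h.jj
  have hj3 := small_B h hB
  have hn : 7 ≤ 2 * j2 + 1 := by omega
  have hs : sp v 2 = -1 := by
    rw [Sq2.sp_two v (nn (by omega)), hB]
    simp
  rw [hs] at h1
  have n1 := two_ne (n := 2 * j2 + 1) (by omega) (x := 1) (by norm_num) (by norm_num)
  have n3 := two_ne (n := 2 * j2 + 1) (by omega) (x := 3) (by norm_num) (by norm_num)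
  have n5 : ((5 : ℕ) : ZMod (2 * j2 + 1)) ≠ 0 := by
    rw [Ne, ZMod.natCast_eq_zero_iff]
    intro g
    have := Nat.le_of_dvd (by norm_num) g
    omega
  push_cast at n1 n3 n5
  rcases conf_eq h1 (by intro g; apply n3; linear_combination -g) with ⟨g0, g⟩ | ⟨_, g⟩ | ⟨_, g⟩
  · apply h.g g0
    have : (1 : ZMod (2 * j2 + 1)) = t := by linear_combination g
    rw [this]
    exact ht
  · apply n1
    linear_combination -g
  · apply n5
    linear_combination -g

/-! ### The family of `u` -/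

theorem word_pow2 {u0 : X j} {w : X k} {b : ZMod (2 * j + 1) → ℕ} (t : ℕ)
    (hw : w.1 = ins ((TT ^ t) u0).1 (lf b)) : ∃ w' : X k, cyc w' = cyc w ∧
      w'.1 = ins u0.1 (lf (fun z => b (z - sp u0 t))) := by
  have h0 := word_phi hw
  rw [pkn_pow] at h0
  have hs : ∑ z, b (z - sp u0 t) = ∑ z, b z := by
    have := sum_shift b (-(sp u0 t))
    simpa [sub_eq_add_neg] using this
  obtain ⟨w', hw'⟩ : ∃ w' : X k, w'.1 = ins u0.1 (lf (fun z => b (z - sp u0 t))) :=
    ⟨phi u0 (fun z => b (z - sp u0 t)) (by rw [hs]; exact h0), rfl⟩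
  refine ⟨w', ?_, hw'⟩
  rw [← cyc_pow' w' t]
  congr 1
  apply Subtype.ext
  rw [word_pow hw', hw]
  congr 2
  funext z
  rw [add_sub_cancel_right]

/-- rotation of the beads by the group of `u` -/
theorem tc_rot (u : X j) (hk : j + pkn u.1 + 2 = k) {t : ZMod (2 * j + 1)} (ht : t ∈ rotGrp u)
    (x : ZMod (2 * j + 1)) (d : ℕ) : tc u hk x d = tc u hk (x + t) d := by
  obtain ⟨i, h1, h2⟩ := ht
  obtain ⟨w, hw, hw1⟩ := tc_exists u hk (x + t) d
  rw [← hw, ← cyc_pow' w i]
  symm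
  apply tc_word
  rw [word_pow hw1, h1, h2]
  congr 2
  funext z
  have e1 : (z + t = x + t) ↔ z = x := add_left_inj _
  have e2 : (z + t = x + t + (d : ZMod (2 * j + 1))) ↔ z = x + (d : ZMod (2 * j + 1)) := by
    constructor
    · intro h
      linear_combination h
    · rintro rfl
      ring
  simp only [e1, e2]

theorem tc_same (u : X j) (hk : j + pkn u.1 + 2 = k) {x y : ZMod (2 * j + 1)} {d : ℕ}
    (h : tc u hk x d = tc u hk y d) : ∃ t ∈ rotGrp u, ∀ z,
      (if z = y then 1 else 0) + (if z = y + (d : ZMod (2 * j + 1)) then 1 else 0) =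
      (if z + t = x then 1 else 0) + if z + t = x + (d : ZMod (2 * j + 1)) then 1 else 0 := by
  unfold tc at h
  rw [cyc_eq, same_iff] at h
  obtain ⟨i, h1, h2⟩ := h
  refine ⟨sp u i, ⟨i, h1, rfl⟩, fun z => ?_⟩
  have h3 := congrFun h2 z
  rw [two_apply, two_apply] at h3
  exact h3

/-- level 0 -/
theorem tc_same0 (u : X j) (hk : j + pkn u.1 + 2 = k) {x y : ZMod (2 * j + 1)}
    (h : tc u hk x 0 = tc u hk y 0) : x - y ∈ rotGrp u := by
  obtain ⟨t, ht, h1⟩ := tc_same u hk h
  have h2 := h1 y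
  rw [Nat.cast_zero, add_zero, add_zero, if_pos rfl] at h2
  by_cases h3 : y + t = x
  · have : x - y = t := by rw [← h3]; ring
    rw [this]
    exact ht
  · rw [if_neg h3] at h2
    omega

/-- level 1 -/
theorem tc_same1 (hj : 2 ≤ j) (u : X j) (hk : j + pkn u.1 + 2 = k) {x y : ZMod (2 * j + 1)}
    (h : tc u hk x 1 = tc u hk y 1) : x - y ∈ rotGrp u := by
  obtain ⟨t, ht, h1⟩ := tc_same u hk h
  have hn : 5 ≤ 2 * j + 1 := by omega
  have n1 := two_ne hn (x := 1) (by norm_num) (by norm_num)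
  have n2 := two_ne hn (x := 2) (by norm_num) (by norm_num)
  push_cast at n1 n2
  have h2 := h1 y
  have h3 := h1 (y + 1)
  rw [Nat.cast_one] at h2 h3
  have a1 : ¬ (y = y + 1) := fun g => n1 (by linear_combination -g)
  have a2 : ¬ (y + 1 = y) := fun g => n1 (by linear_combination g)
  rw [if_pos rfl, if_neg a1] at h2
  rw [if_pos rfl, if_neg a2] at h3
  by_cases h4 : y + t = x
  · have : x - y = t := by rw [← h4]; ring
    rw [this]
    exact ht
  · rw [if_neg h4] at h2
    by_cases h5 : y + t = x + 1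
    · exfalso
      have b1 : ¬ (y + 1 + t = x) := fun g => n2 (by linear_combination g - h5)
      have b2 : ¬ (y + 1 + t = x + 1) := fun g => n1 (by linear_combination g - h5)
      rw [if_neg b1, if_neg b2] at h3
      omega
    · rw [if_neg h5] at h2
      omega

section

variable (h : Dat k a v u) (w : X k)

include h

theorem Dat.c1 : cyc (J3.sX (inf u.1) (inf (inf (Tsq.sq v.1).2)) (inf (Tsq.sq u.1).1) w 1) = tc u h.hk (-1) 0 := by
  apply tc_word
  rw [h.sqd.word w (by norm_num)]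
  change app (inf u.1) (.nil △ (.nil △ .nil)) = _
  have e1 : app (inf u.1) (.nil △ (.nil △ .nil)) = app (app (inf u.1) (.nil △ .nil)) (.nil △ .nil) := by
    rw [app_assoc']
    rfl
  rw [e1, inf_word, ← ins_back, ← ins_back]
  congr 2
  funext z
  rw [Nat.cast_zero, add_zero, zero_add]

theorem Dat.c2 : cyc (J3.sX (inf u.1) (inf (inf (Tsq.sq v.1).2)) (inf (Tsq.sq u.1).1) w 2) = tc u h.hk (-1) 1 := by
  apply tc_word
  rw [h.sqd.word w (by norm_num)]
  change .nil △ app (inf u.1) (.nil △ .nil) = _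
  rw [inf_word, ← ins_back, ← ins_front]
  congr 2
  funext z
  rw [Nat.cast_one, zero_add, neg_add_cancel]

theorem Dat.c5 : cyc (J3.sX (inf u.1) (inf (inf (Tsq.sq v.1).2)) (inf (Tsq.sq u.1).1) w 5) = tc u h.hk 0 0 := by
  apply tc_word
  rw [h.sqd.word w (by norm_num)]
  change .nil △ (.nil △ inf u.1) = _
  rw [inf_word, ← ins_front, ← ins_front]
  congr 2
  funext z
  rw [Nat.cast_zero, add_zero, zero_add]

/-- the data for `B = nil` -/
theorem Dat.nil (hB : (Tsq.sq v.1).2 = .nil) : ((TT ^ 2) u).1 = (Tsq.sq u.1).1 ∧ sp u 2 = -1 := by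
  obtain ⟨A, C, hv⟩ := node_of (v := v) (by have := h.jj; omega)
  have hu : u.1 = lv a (inf1 A) △ inf C := h.hu.trans (u_word hv a)
  have hBu : (Tsq.sq u.1).2 = .nil := by
    rw [hu, Sq2.sq_one, ← hv, hB, inf_nil]
  constructor
  · have := Tsq.TT_sq u (by rw [hu]; simp)
    rw [hBu] at this
    rw [pow_two, Equiv.Perm.mul_apply, this]
    rfl
  · rw [Sq2.sp_two u (by rw [hu]; simp), hBu]
    simp

theorem Dat.c16 (hB : (Tsq.sq v.1).2 = .nil) :
    cyc (J3.sX (inf u.1) (inf (inf (Tsq.sq v.1).2)) (inf (Tsq.sq u.1).1) w 16) = tc u h.hk (-2) 0 := by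
  obtain ⟨e1, e2⟩ := h.nil hB
  have e3 : (J3.sX (inf u.1) (inf (inf (Tsq.sq v.1).2)) (inf (Tsq.sq u.1).1) w 16).1 =
      ins ((TT ^ 2) u).1 (lf (fun z : ZMod (2 * j + 1) => ((0 + if z = -1 then 1 else 0) +
        if z = -1 then 1 else 0))) := by
    rw [h.sqd.word w (by norm_num), hB, inf_nil]
    change app (inf (Tsq.sq u.1).1) (.nil △ (.nil △ .nil)) = _
    have g1 : app (inf (Tsq.sq u.1).1) (.nil △ (.nil △ .nil)) =
        app (app (inf (Tsq.sq u.1).1) (.nil △ .nil)) (.nil △ .nil) := by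
      rw [app_assoc']
      rfl
    rw [g1, ← e1, inf_word, ← ins_back, ← ins_back]
  obtain ⟨w', g1, g2⟩ := word_pow2 2 e3
  rw [← g1]
  apply tc_word
  rw [g2, e2]
  congr 2
  funext z
  have g3 : (z - -1 = -1) ↔ z = -2 := by
    constructor
    · intro g
      linear_combination g
    · rintro rfl
      ring
  rw [Nat.cast_zero, add_zero, zero_add]
  simp only [g3]

theorem Dat.c18 (hB : (Tsq.sq v.1).2 = .nil) :
    cyc (J3.sX (inf u.1) (inf (inf (Tsq.sq v.1).2)) (inf (Tsq.sq u.1).1) w 18) = tc u h.hk (-2) 1 := by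
  obtain ⟨e1, e2⟩ := h.nil hB
  have e3 : (J3.sX (inf u.1) (inf (inf (Tsq.sq v.1).2)) (inf (Tsq.sq u.1).1) w 18).1 =
      ins ((TT ^ 2) u).1 (lf (fun z : ZMod (2 * j + 1) => ((0 + if z = -1 then 1 else 0) +
        if z = 0 then 1 else 0))) := by
    rw [h.sqd.word w (by norm_num), hB, inf_nil]
    change .nil △ app (inf (Tsq.sq u.1).1) (.nil △ .nil) = _
    rw [← e1, inf_word, ← ins_back, ← ins_front]
  obtain ⟨w', g1, g2⟩ := word_pow2 2 e3
  rw [← g1]
  apply tc_word
  rw [g2, e2]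
  congr 2
  funext z
  have g3 : (z - -1 = -1) ↔ z = -2 := by
    constructor
    · intro g
      linear_combination g
    · rintro rfl
      ring
  have g4 : (z - -1 = 0) ↔ z = -2 + 1 := by
    constructor
    · intro g
      linear_combination g
    · rintro rfl
      ring
  rw [Nat.cast_one, zero_add]
  simp only [g3, g4]

/-- **the conditions** -/
theorem Dat.ok : J3.J3OK (inf u.1) (inf (inf (Tsq.sq v.1).2)) (inf (Tsq.sq u.1).1) w := by
  have hsz := h.size
  have hj2 := h.jj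
  have hj : 2 ≤ j := by omega
  obtain ⟨hF1, hF2, hF3, hF4⟩ := two_family (by omega) u h.hk
  have nB : inf (inf (Tsq.sq v.1).2) = .nil → (Tsq.sq v.1).2 = .nil := by
    intro g
    by_contra g1
    exact inf_ne_nil (inf_ne_nil g1) g
  constructor
  · exact h.n10 w
  · exact h.n4 w
  · rw [h.c1, h.c2]
    intro g
    have := hF2 _ _ _ _ (by omega) (by omega) g
    omega
  · rw [h.c5, h.c2]
    intro g
    have := hF2 _ _ _ _ (by omega) (by omega) g
    omega
  · intro hB
    refine ⟨h.b13 w (nB hB), ?_⟩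
    intro e
    have e1 := congrArg Subtype.val e
    rw [h.sqd.word w (by norm_num), h.sqd.word w (by norm_num)] at e1
    obtain ⟨A, C, hv⟩ := node_of (v := v) (by omega)
    have hu : u.1 = lv a (inf1 A) △ inf C := h.hu.trans (u_word hv a)
    have hR : inf u.1 ≠ .nil := h.sqd.ne
    obtain ⟨Xx, Y, e2, e3⟩ := Sq2.first (inf u.1) hR
    rw [h.sqd.sq] at e2
    change inf (Tsq.sq u.1).1 = Xx △ Y at e2
    rw [e2] at e1
    change ((BinaryTree.nil △ .nil) △ inf u.1) = Xx △ _ at e1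
    have e4 : (BinaryTree.nil △ .nil) = Xx := (H1.node_inj e1).1
    rw [← e4, Sq2.htT, Sq2.htT] at e3
    have h3 := h.sqd.h3
    change 1 + 1 = _ at e3
    omega
  · intro hB
    have hB' := nB hB
    rw [h.c1, h.c2, h.c5, h.c16 w hB', h.c18 w hB']
    by_cases g1 : (1 : ZMod (2 * j + 1)) ∈ rotGrp u
    · right
      refine ⟨?_, ?_, ?_⟩
      · rw [tc_rot u h.hk g1 (-1) 0, neg_add_cancel]
      · rw [tc_rot u h.hk g1 (-2) 0]
        congr 1
        ring
      · rw [tc_rot u h.hk g1 (-2) 1]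
        congr 1
        ring
    · left
      have g2 : (-2 : ZMod (2 * j + 1)) - -1 ∉ rotGrp u := by
        intro g
        apply g1
        have : (1 : ZMod (2 * j + 1)) = -(-2 - -1) := by ring
        rw [this]
        exact (rotGrp u).neg_mem g
      refine ⟨fun g => g2 (tc_same0 u h.hk g), ?_, ?_, fun g => g2 (tc_same1 hj u h.hk g)⟩
      · intro g
        have := hF2 _ _ _ _ (by omega) (by omega) g
        omega
      · intro g
        have := hF2 _ _ _ _ (by omega) (by omega) g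
        omega

end

end J3Ex

end Pool.OddHC
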