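import Pool.Agent.Work.MP_8f87b2_h42.J3Ex

/-!
# The top group J3V of the classes `(V; a, 2)`, `(V; a+1, 0)`

`RJ R B`: rule J. `exists_phase`: a phase of `V` with rule J. `TyJ3J`: J3V with rule J. `topJ`: the statement `TopJ`.
-/

set_option autoImplicit false

namespace Pool.OddHC

open Finset BinaryTree Multiset Pool.OddHop

namespace J3Ex

variable {j j2 k : ℕ}

/-! ### Rule J -/

/-- RULE J: `B = nil` or the largest part of `B` is not the unique smallest part of `R` above 2 -/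
def RJ (R B : BinaryTree Unit) : Prop :=
  B = .nil ∨ (2 < ht B ∧ ∃ x ∈ (cont R).erase (ht B), 2 < x ∧ x ≤ ht B)

/-- the same for the word `v` -/
def RJ0 (v : BinaryTree Unit) : Prop :=
  (Tsq.sq v).2 = .nil ∨ ∃ x ∈ (cont v).erase (ht (Tsq.sq v).2), x ≤ ht (Tsq.sq v).2

theorem sq_cont {t : BinaryTree Unit} (h : t ≠ .nil) :
    cont (Tsq.sq t).2 + cont (Tsq.sq t).1 = cont t := by
  let x : X t.numNodes := ⟨t, mem_treesOfNumNodesEq.2 rfl⟩
  have e1 : (TT (TT x)).1 = app (Tsq.sq t).2 (Tsq.sq t).1 := Tsq.TT_sq x h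
  have e2 : cont (TT (TT x)).1 = cont t := by
    rw [TT_apply, cont_TF, TT_apply, cont_TF]
  rw [e1, cont_app] at e2
  exact e2

theorem ht_mem {t : BinaryTree Unit} (h : t ≠ .nil) : ht t ∈ cont t := by
  rw [ht_eq]
  exact sup_mem fun h1 => h (cont_eq_zero.1 h1)

theorem exists_red (t : BinaryTree Unit) :
    ∃ (m : ℕ) (r : X m) (e : ZMod (2 * m + 1) → ℕ), ins r.1 (lf e) = t := by
  obtain ⟨e, he⟩ := exists_lf (red_len t)
  refine ⟨_, ⟨(red t).1, mem_treesOfNumNodesEq.2 rfl⟩, e, ?_⟩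
  have := ins_red t
  rw [he] at this
  exact this

/-- **a unique smallest part stands in front at some time** -/
theorem exists_front : ∀ (b j : ℕ) (v : X j) (M : Multiset ℕ), cont v.1 = {b + 1} + M →
    (∀ x ∈ M, b + 1 < x) → ∃ (t : ℕ) (W : BinaryTree Unit), ((TT ^ t) v).1 = app (pc (b + 1)) W ∧
      cont W = M := by
  intro b
  induction b with
  | zero =>
    intro j v M hM hb
    obtain ⟨m, r, e, hred⟩ := exists_red v.1
    have hs : ∑ x, e x = 1 := by
      have h1 := count_one_ins r.1 (lf e) (by rw [lf_length, X_num])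
      rw [hred, hM, Multiset.count_add] at h1
      have h2 : M.count 1 = 0 := by
        rw [Multiset.count_eq_zero]
        intro h3
        have := hb 1 h3
        omega
      rw [h2, lf_sum] at h1
      simpa using h1.symm
    -- the place of the bead
    obtain ⟨x, hx⟩ : ∃ x, ∀ z, e z = if z = x then 1 else 0 := by
      have h1 : ∃ x, e x ≠ 0 := by
        by_contra h
        push Not at h
        rw [Finset.sum_eq_zero (fun x _ => h x)] at hs
        omega
      obtain ⟨x, hx⟩ := h1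
      refine ⟨x, fun z => ?_⟩
      have h2 := Finset.add_sum_erase univ e (mem_univ x)
      rw [hs] at h2
      by_cases hz : z = x
      · subst hz
        rw [if_pos rfl]
        omega
      · rw [if_neg hz]
        have h3 : e z ≤ ∑ y ∈ univ.erase x, e y :=
          Finset.single_le_sum (fun _ _ => Nat.zero_le _) (Finset.mem_erase.2 ⟨hz, mem_univ z⟩)
        omega
    -- the time
    have key : ∃ t, sp r t = x := by
      by_cases hj : 1 ≤ m
      · exact exists_sp hj r x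
      · refine ⟨0, ?_⟩
        have h0 : m = 0 := by omega
        subst h0
        exact Subsingleton.elim (α := ZMod 1) _ _
    obtain ⟨t, ht⟩ := key
    have h4 := word_pow (w := v) (u := r) (b := e) hred.symm t
    have h5 : ((TT ^ t) v).1 = .nil △ ins ((TT ^ t) r).1 (lf (fun _ : ZMod (2 * m + 1) => 0)) := by
      rw [h4, ← ins_front]
      congr 2
      funext z
      rw [hx, ht, zero_add]
      have : (z + x = x) ↔ z = 0 := add_eq_right
      simp only [this]
    refine ⟨t, _, h5, ?_⟩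
    have h6 := cont_pow v t
    rw [h5, hM, cont_node, cont_nil, raise_zero] at h6
    exact add_left_cancel h6
  | succ b ih =>
    intro j v M hM hb
    obtain ⟨m, r, e, hred⟩ := exists_red v.1
    have hs : ∑ x, e x = 0 := by
      have h1 := count_one_ins r.1 (lf e) (by rw [lf_length, X_num])
      rw [hred, hM, Multiset.count_add] at h1
      have h2 : M.count 1 = 0 := by
        rw [Multiset.count_eq_zero]
        intro h3
        have := hb 1 h3
        omega
      have h3 : Multiset.count 1 ({b + 1 + 1} : Multiset ℕ) = 0 := by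
        rw [Multiset.count_eq_zero, Multiset.mem_singleton]
        omega
      rw [h2, h3, lf_sum] at h1
      simpa using h1.symm
    have e0 : e = fun _ => 0 := by
      funext z
      rw [Finset.sum_eq_zero_iff] at hs
      exact hs z (mem_univ z)
    rw [e0] at hred
    have hv : v.1 = inf r.1 := by rw [inf_word, hred]
    have hc : cont v.1 = (cont r.1).map (· + 1) := by rw [hv, cont_inf]
    -- the contents of `r`
    have hcr : cont r.1 = {b + 1} + M.map (· - 1) := by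
      have h1 : cont r.1 = ((cont r.1).map (· + 1)).map (· - 1) := by
        rw [Multiset.map_map]
        simp
      rw [h1, ← hc, hM, Multiset.map_add, Multiset.map_singleton]
      rfl
    obtain ⟨t, W, h1, h2⟩ := ih _ r (M.map (· - 1)) hcr (by
      intro x hx
      obtain ⟨y, hy, rfl⟩ := Multiset.mem_map.1 hx
      have := hb y hy
      omega)
    refine ⟨t, inf W, ?_, ?_⟩
    · have h3 := word_pow (w := v) (u := r) (b := fun _ => 0) (by rw [hv, inf_word]) t
      rw [h3, ← inf_word, h1, inf_app, inf_pc (by omega)]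
    · rw [cont_inf, h2, Multiset.map_map]
      conv_rhs => rw [← Multiset.map_id M]
      apply Multiset.map_congr rfl
      intro x hx
      have := hb x hx
      change x - 1 + 1 = x
      omega

/-- **a phase with rule J** -/
theorem exists_phase (v0 : X j) (h2 : 2 ≤ Multiset.card (cont v0.1)) :
    ∃ v : X j, cyc v = cyc v0 ∧ RJ0 v.1 := by
  classical
  have h0 : cont v0.1 ≠ 0 := by
    intro h
    rw [h] at h2
    simp at h2
  -- the smallest part
  obtain ⟨b, hb, hmin⟩ : ∃ b ∈ cont v0.1, ∀ x ∈ cont v0.1, b ≤ x := by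
    obtain ⟨x0, hx0⟩ := Multiset.exists_mem_of_ne_zero h0
    have hne : (cont v0.1).toFinset.Nonempty := ⟨x0, Multiset.mem_toFinset.2 hx0⟩
    obtain ⟨b, h3, h4⟩ := (cont v0.1).toFinset.exists_min_image id hne
    exact ⟨b, Multiset.mem_toFinset.1 h3, fun x hx => h4 x (Multiset.mem_toFinset.2 hx)⟩
  have hsub : ∀ {t : BinaryTree Unit}, t ≠ .nil → ∀ x ∈ cont (Tsq.sq t).2, x ∈ cont t := by
    intro t ht x hx
    rw [← sq_cont ht]
    exact Multiset.mem_add.2 (Or.inl hx)
  have hv0 : v0.1 ≠ .nil := by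
    intro h
    rw [h] at h0
    exact h0 cont_nil
  by_cases hc : 2 ≤ (cont v0.1).count b
  · refine ⟨v0, rfl, ?_⟩
    by_cases hB : (Tsq.sq v0.1).2 = .nil
    · exact Or.inl hB
    · right
      have h3 := hsub hv0 _ (ht_mem hB)
      refine ⟨b, ?_, hmin _ h3⟩
      rw [← Multiset.count_pos]
      by_cases h4 : ht (Tsq.sq v0.1).2 = b
      · rw [h4, Multiset.count_erase_self]
        omega
      · rw [Multiset.count_erase_of_ne (fun h => h4 h.symm)]
        omega
  · obtain ⟨b', rfl⟩ : ∃ b', b = b' + 1 := ⟨b - 1, by have := cont_pos v0.1 b hb; omega⟩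
    obtain ⟨M, hM⟩ := Multiset.exists_cons_of_mem hb
    have hM' : cont v0.1 = {b' + 1} + M := by rw [hM, Multiset.singleton_add]
    have hMb : ∀ x ∈ M, b' + 1 < x := by
      intro x hx
      have h3 := hmin x (by rw [hM]; exact Multiset.mem_cons_of_mem hx)
      rcases Nat.lt_or_ge (b' + 1) x with h4 | h4
      · exact h4
      · exfalso
        have h5 : x = b' + 1 := by omega
        rw [h5] at hx
        apply hc
        rw [hM, Multiset.count_cons_self]
        have := Multiset.count_pos.2 hx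
        omega
    obtain ⟨t, W, hW, hWM⟩ := exists_front b' j v0 M hM' hMb
    have hcard : Multiset.card M + 1 = Multiset.card (cont v0.1) := by rw [hM, Multiset.card_cons]
    have hWn : W ≠ .nil := by
      rintro rfl
      rw [cont_nil] at hWM
      rw [← hWM, Multiset.card_zero] at hcard
      omega
    refine ⟨(TT ^ t) v0, cyc_pow' v0 t, ?_⟩
    have hWh : b' + 1 < ht W := by
      have := ht_mem hWn
      rw [hWM] at this
      exact hMb _ this
    have hB : (Tsq.sq ((TT ^ t) v0).1).2 = (Tsq.sq W).2 := by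
      rw [hW]
      change (Tsq.sq (pc b' △ W)).2 = _
      obtain ⟨X, Y, e, _⟩ := Sq2.first W hWn
      rw [Tsq.sq_lt (by rw [Sq2.htT, Sq2.htT, ht_pc]; exact hWh) e]
    unfold RJ0
    rw [hB]
    by_cases hn : (Tsq.sq W).2 = .nil
    · exact Or.inl hn
    · right
      have h3 := hsub hWn _ (ht_mem hn)
      rw [hWM] at h3
      have h4 := hMb _ h3
      refine ⟨b' + 1, ?_, h4.le⟩
      have h5 : (b' + 1) ≠ ht (Tsq.sq W).2 := by omega
      rw [cont_pow, hM', Multiset.singleton_add, Multiset.erase_cons_tail _ h5]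
      exact Multiset.mem_cons_self _ _

variable {a : ℕ} {v : X j2} {u : X j}

theorem Dat.rj (h : Dat k a v u) (hv : RJ0 v.1) : RJ (inf u.1) (inf (inf (Tsq.sq v.1).2)) := by
  rcases hv with h1 | ⟨x, hx, h1⟩
  · left
    rw [h1]
    rfl
  · by_cases hB : (Tsq.sq v.1).2 = .nil
    · left
      rw [hB]
      rfl
    · right
      have e1 : ht (inf (inf (Tsq.sq v.1).2)) = ht (Tsq.sq v.1).2 + 2 := by
        rw [ht_inf (inf_ne_nil hB), ht_inf hB]
      have e2 := ht_pos hB
      have e3 : cont (inf u.1) = (cont v.1).map (· + 2) + replicate a 2 := by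
        rw [cont_inf, h.hu, cont_ins _ _ (by rw [lf_length, X_num]), Multiset.map_add, Multiset.map_map,
          Multiset.map_replicate]
        congr 2
        rw [lf_sum, Finset.sum_ite_eq' univ (1 : ZMod (2 * j2 + 1)) (fun _ => a), if_pos (mem_univ _)]
      rw [e1]
      refine ⟨by omega, x + 2, ?_, ?_, by omega⟩
      · rw [e3]
        have hm : ht (Tsq.sq v.1).2 ∈ cont v.1 := by
          have := ht_mem hB
          rw [← sq_cont (nn (v := v) (by have := h.jj; omega))]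
          exact Multiset.mem_add.2 (Or.inl this)
        rw [Multiset.erase_add_left_pos _ (Multiset.mem_map_of_mem (· + 2) hm),
          ← Multiset.map_erase (· + 2) (add_left_injective 2)]
        exact Multiset.mem_add.2 (Or.inl (Multiset.mem_map_of_mem (· + 2) hx))
      · have := cont_pos v.1 x (Multiset.mem_of_mem_erase hx)
        omega

end J3Ex

open J3Ex

variable {j j2 k : ℕ} {F : Set (Cyc k)} {g : DG k}

/-- TYPE J3V with rule J -/
def TyJ3J (F : Set (Cyc k)) (g : DG k) : Prop :=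
  ∃ (R B S : BinaryTree Unit) (w0 : X k), J3.SqD k R B S ∧ J3.J3OK R B S w0 ∧ RJ R B ∧
    F = {cyc (J3.sX R B S w0 0), cyc (J3.sX R B S w0 1), cyc (J3.sX R B S w0 2)} ∧
    g = gadS (J3.sX R B S w0)

theorem TyJ3J.toJ3V (h : TyJ3J F g) : TyJ3V F g := by
  obtain ⟨R, B, S, w0, h1, h2, h3, h4, h5⟩ := h
  exact ⟨R, B, S, w0, h1, h2, h4, h5⟩

variable {τ : Type} {P : τ → Set (Cyc k) → DG k → Prop} {V : Cyc j2}

/-- the class `(V; a, 0)` without one T-cycle -/
theorem jvc_one {b : ℕ} (hb : j2 + 2 * pkc V + 2 * b = k) (ho : oddF j2 b)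
    (jv : ∀ (j : ℕ) (U U' : Cyc j), j = j2 + pkc V + b → Rd U = ⟨j2, V⟩ → Rd U' = ⟨j2, V⟩ → U ≠ U' →
      HopC U U' → ∃ p q : Cyc k, Rd p = ⟨j, U⟩ ∧ Rd q = ⟨j, U'⟩ ∧ Typd P P {p, q})
    (U0 : Cyc j) (hj : j = j2 + pkc V + b) (hU0 : Rd U0 = ⟨j2, V⟩)
    (h2 : (contc U0).count 1 = 2 → IsTwo U0) (Y : Set (Cyc k))
    (hY : ∀ c, cl c ∈ vcl k V b → (c ∈ Y ↔ Rd c = ⟨j, U0⟩)) : JVC P V b Y := by
  intro p0 Xs hp0 hX
  obtain ⟨U1, a1, a2, a3, a4, a5⟩ := vcl_data (m := 0) (j := j) (by omega) hp0 hj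
  have hU01 : Rd U0 = Rd U1 := by rw [hU0, a2]
  refine r2_cls a1 (by omega) Xs (fun U U' hU hU' hne hop => jv j U U' hj (by rw [hU, a2])
    (by rw [hU', a2]) hne hop) U0 hU01 (fun h _ => h2 h) ?_
  intro c hc
  rw [hX c hc, hY c ((vcl_same hp0).1 hc)]
  have e1 : (contc U0).count 1 = b := by rw [Rd_contc hU01, a3]
  rw [hU0, e1]
  exact ⟨fun h => ⟨h, ho⟩, fun h => h.1⟩

/-- **the position of a J3V group** in the classes `(V; a, 2)`, `(V; a+1, 0)` -/
structure J3Pos (k : ℕ) (V : Cyc j2) (a : ℕ) (F : Set (Cyc k)) : Prop where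
  ex : ∃ (v : X j2) (x2 : ZMod (2 * j2 + 1)) (u : X (j2 + pkc V + a)) (hk : j2 + pkc V + a + pkn u.1 + 2 = k)
    (x : ZMod (2 * (j2 + pkc V + a) + 1)) (s : Bool) (U1 : Cyc (j2 + pkc V + a + 1)),
    cyc v = V ∧ u.1 = ins v.1 (lf fun z : ZMod (2 * j2 + 1) => if z = x2 then a else 0) ∧
    Rd U1 = ⟨j2, V⟩ ∧ ((contc U1).count 1 = 2 → IsTwo U1) ∧
    (∀ c ∈ F, cl c ∈ vcl k V a ∪ vcl k V (a + 1)) ∧
    (∀ c, cl c ∈ vcl k V a → (c ∈ F ↔ c = tc u hk x 0 ∨ c = tc u hk (mate s x) 1)) ∧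
    (∀ c, cl c ∈ vcl k V (a + 1) → (c ∈ F ↔ Rd c = ⟨j2 + pkc V + a + 1, U1⟩))

/-- **(A) existence** -/
theorem j3_ex {a : ℕ} (hk : j2 + 2 * pkc V + 2 * a + 2 = k) (h2 : 2 ≤ pkc V)
    (hg : a = 0 → ∀ v : X j2, cyc v = V → (1 : ZMod (2 * j2 + 1)) ∉ rotGrp v) :
    ∃ (F : Set (Cyc k)) (g : DG k), TyJ3J F g ∧ J3Pos k V a F := by
  obtain ⟨v0, hv0⟩ : ∃ v0 : X j2, cyc v0 = V := Quotient.exists_rep V
  obtain ⟨v, hv1, hRJ⟩ := exists_phase v0 (by rw [cont_card, ← pkc_cyc, hv0]; exact h2)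
  have hv : cyc v = V := hv1.trans hv0
  have hp : pkn v.1 = pkc V := by rw [← pkc_cyc, hv]
  have hn := ins_num v.1 (lf (fun z : ZMod (2 * j2 + 1) => if z = 1 then a else 0))
    (by rw [lf_length, X_num])
  have hs : (lf (fun z : ZMod (2 * j2 + 1) => if z = 1 then a else 0)).sum = a := by
    rw [lf_sum, Finset.sum_ite_eq' univ (1 : ZMod (2 * j2 + 1)) (fun _ => a), if_pos (mem_univ _)]
  rw [hs, X_num, hp] at hn
  obtain ⟨u, hu⟩ : ∃ u : X (j2 + pkc V + a),
      u.1 = ins v.1 (lf (fun z : ZMod (2 * j2 + 1) => if z = 1 then a else 0)) :=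
    ⟨⟨_, mem_treesOfNumNodesEq.2 hn.1⟩, rfl⟩
  have hD : Dat k a v u := by
    refine ⟨hu, by rw [cont_card, hp]; exact h2, ?_, fun h => hg h v hv⟩
    rw [hu, hn.2]
    omega
  have w0 : X k := phi u (two (0 : ZMod (2 * (j2 + pkc V + a) + 1)) 0).1 (by
    rw [(two (0 : ZMod (2 * (j2 + pkc V + a) + 1)) 0).2]; exact hD.hk)
  have hok := hD.ok w0
  have hsq := hD.sqd
  obtain ⟨x, hx, hx1, hx2⟩ := hD.w0 w0
  have hc1 := hD.c1 w0
  have hc2 := hD.c2 w0
  have hRu : Rd (cyc u) = ⟨j2, V⟩ := (Rd_ins (lf_length _) hu).trans (by rw [hv])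
  have hRx : Rd (cyc x) = ⟨j2, V⟩ := (Rd_ins (lf_length _) hx).trans (by rw [hv])
  have hRy := Rd_tc u hD.hk
  have vz : cl (cyc (J3.sX (inf u.1) (inf (inf (Tsq.sq v.1).2)) (inf (Tsq.sq u.1).1) w0 0)) ∈
      vcl k V (a + 1) := (vcl_iff hx1 hRx).2 (by omega)
  have vy : ∀ y d, cl (tc u hD.hk y d) ∈ vcl k V a := fun y d => (vcl_iff (hRy y d) hRu).2 rfl
  have hdis : ∀ c : Cyc k, cl c ∈ vcl k V a → cl c ∈ vcl k V (a + 1) → False := by
    intro c h3 h4
    have h5 := (mem_vcl.1 h3).2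
    have h6 := (mem_vcl.1 h4).2
    omega
  refine ⟨{cyc (J3.sX (inf u.1) (inf (inf (Tsq.sq v.1).2)) (inf (Tsq.sq u.1).1) w0 0),
    cyc (J3.sX (inf u.1) (inf (inf (Tsq.sq v.1).2)) (inf (Tsq.sq u.1).1) w0 1),
    cyc (J3.sX (inf u.1) (inf (inf (Tsq.sq v.1).2)) (inf (Tsq.sq u.1).1) w0 2)}, _,
    ⟨_, _, _, w0, hsq, hok, hD.rj hRJ, rfl, rfl⟩, ⟨v, 1, u, hD.hk, -1, true, cyc x, hv, hu, hRx, ?_, ?_, ?_, ?_⟩⟩
  · -- level 2
    intro h3
    rw [contc_cyc, hx, count_one_ins _ _ (by rw [lf_length, X_num]), lf_sum, cf_sum] at h3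
    have ha : a = 1 := by omega
    have hj2 := hD.jj
    refine ⟨j2, v, -1, 2, x, by omega, rfl, rfl, ?_⟩
    rw [hx]
    congr 2
    funext z
    unfold cf
    rw [ha]
    have e1 : (-1 : ZMod (2 * j2 + 1)) + ((2 : ℕ) : ZMod (2 * j2 + 1)) = 1 := by
      push_cast
      ring
    rw [e1, add_comm]
  · rintro c (rfl | rfl | rfl)
    · exact Or.inr vz
    · left; rw [hc1]; exact vy _ _
    · left; rw [hc2]; exact vy _ _
  · intro c hc
    constructor
    · rintro (rfl | rfl | rfl)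
      · exact absurd vz fun h => hdis _ hc h
      · exact Or.inl hc1
      · exact Or.inr hc2
    · rintro (h | h)
      · exact Or.inr (Or.inl (h.trans hc1.symm))
      · exact Or.inr (Or.inr (h.trans hc2.symm))
  · intro c hc
    constructor
    · rintro (rfl | rfl | rfl)
      · exact hx1
      · rw [hc1] at hc
        exact absurd hc fun h => hdis _ (vy _ _) h
      · rw [hc2] at hc
        exact absurd hc fun h => hdis _ (vy _ _) h
    · intro h3
      left
      have h4 := count_class (m := 0) (k := k) hx1 (by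
        rw [pkc_cyc, hx]
        have := ins_num v.1 (lf (cf a (-1) : ZMod (2 * j2 + 1) → ℕ)) (by rw [lf_length, X_num])
        rw [this.2, lf_sum, cf_sum, hp]
        omega) h3 rfl
      exact fam_zero (h3.trans hx1.symm) h4

/-- **(B)** every typed group in this position serves -/
theorem J3Pos.topJ {a : ℕ} {F : Set (Cyc k)} (h : J3Pos k V a F) (hk : j2 + 2 * pkc V + 2 * a + 2 = k)
    (ho : oddF j2 (a + 1))
    (jv : ∀ (j : ℕ) (U U' : Cyc j), j = j2 + pkc V + (a + 1) → Rd U = ⟨j2, V⟩ → Rd U' = ⟨j2, V⟩ →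
      U ≠ U' → HopC U U' → ∃ p q : Cyc k, Rd p = ⟨j, U⟩ ∧ Rd q = ⟨j, U'⟩ ∧ Typd P P {p, q})
    (hty : Typd P P F) : TopJ P V a := by
  obtain ⟨v, x2, u, hu2, x, s, U1, hv, hu, h1, h3, h4, h5, h6⟩ := h.ex
  refine ⟨F, _, u, hu2, x, s, hty, h4, (Rd_ins (lf_length _) hu).trans (by rw [hv]), rfl, ?_, h5, ?_⟩
  · intro h7
    exact IsPile.two ⟨j2, v, x2, a, u, rfl, hu⟩ h7
  · exact jvc_one (j := j2 + pkc V + a + 1) (by omega) ho jv U1 (by omega) h1 h3 F h6

/-- **THE TOP GROUP J3V** -/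
theorem topJ {a : ℕ} (hk : j2 + 2 * pkc V + 2 * a + 2 = k) (ho : oddF j2 (a + 1))
    (h2 : 2 ≤ pkc V) (hg : a = 0 → ∀ v : X j2, cyc v = V → (1 : ZMod (2 * j2 + 1)) ∉ rotGrp v)
    (jv : ∀ (j : ℕ) (U U' : Cyc j), j = j2 + pkc V + (a + 1) → Rd U = ⟨j2, V⟩ → Rd U' = ⟨j2, V⟩ →
      U ≠ U' → HopC U U' → ∃ p q : Cyc k, Rd p = ⟨j, U⟩ ∧ Rd q = ⟨j, U'⟩ ∧ Typd P P {p, q})
    (hty : ∀ F g, TyJ3J F g → Typd P P F) : TopJ P V a := by
  obtain ⟨F, g, h3, h4⟩ := j3_ex (V := V) hk h2 hg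
  exact h4.topJ hk ho jv (hty F g h3)

end Pool.OddHC
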