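import Pool.Agent.Work.MP_8f87b2_h4.Strong
import Pool.Agent.Work.MP_8f87b2_h42.TopJ

/-!
# J3V with rule J and a square in `R` against E with the rule `Low`, every height (also 3)
-/

set_option autoImplicit false

namespace Pool.OddHC

open Finset Equiv BinaryTree Pool.Agent.Work.MP_8f87b2_co J3

variable {k : ℕ} {F F' : Set (Cyc k)} {g g' : DG k} {R B S Y : BinaryTree Unit}

/-- `X = S(B)` is not low: `R` has a part 2, `B = nil` or `2 < ht B` -/
theorem J3.SqD.low3_42 (h : SqD k R B S) (hr : B = .nil ∨ 2 < OddHC.ht B) (h2 : 1 ≤ (OddHC.cont R).count 2) :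
    ¬ FhOK (app S (B △ .nil)) := by
  have h3 := h.h3
  obtain ⟨Z, Y, e0, hZ, hY⟩ := h.top2
  have hc := h.cont
  have f : H1.fh (app S (B △ .nil)) = OddHC.ht Z := by
    rw [e0]
    apply H1.fh_node
    rintro rfl
    have z0 : OddHC.ht (BinaryTree.nil : BinaryTree Unit) = 0 := rfl
    omega
  have e : (OddHC.cont (app S (B △ .nil))).count 2 = (OddHC.cont R).count 2 := by
    rw [OddHC.cont_app, OddHC.cont_node, OddHC.cont_nil, add_zero, Multiset.count_add, ← hc, Multiset.count_add,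
      add_comm]
    congr 1
    rcases hr with rfl | hr
    · rw [OddHC.cont_nil, raise_zero]
      simp
    · rw [OddHC.ht_eq] at hr
      exact count_raise 2 (by omega) (by omega)
  rintro ⟨k1, _⟩
  have := k1 (by rw [e]; exact h2)
  omega

/-- **E with the rule `Low` against J3V with rule J and a square in `R`**: no common word, every height -/
theorem TyE.disJ3J (h : TyE F g) (hq : SqD k R B S) (hr : J3Ex.RJ R B) (h2 : 1 ≤ (OddHC.cont R).count 2) {w0 : X k}
    (hd : ∀ c ∈ F, c ≠ cyc (sX R B S w0 1) ∧ c ≠ cyc (sX R B S w0 2)) {w : X k} (hw : w ∈ g.B)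
    {i : ℕ} (hi : i < 20) (h9 : i ≠ 9) : w.1 ≠ H1.W R .nil B S i := by
  intro e
  obtain ⟨Y, ht, hY⟩ := h.fh
  obtain ⟨l1, l2⟩ := hq.low1 (Or.inl h2)
  rcases hq.eW ht hd hw hi h9 e with rfl | rfl | rfl
  · exact l1 hY
  · exact l2 hY
  · exact hq.low3_42 (hr.imp_right fun h => h.1) h2 hY

/-- **row W-E-J3V** for `TyJ3J` with a square in `R` -/
theorem TyJ3J.disE (h : TyJ3J F g) (h2 : ∃ c ∈ F, 1 ≤ (contc c).count 2 ∧ 1 ≤ (contc c).count 1 ∨
    2 ≤ (contc c).count 2) (h' : TyE F' g') (hd : ∀ c ∈ F, c ∉ F') : ∀ w ∈ g.B, w ∉ g'.B := by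
  obtain ⟨R, B, S, w0, hq, hok, hr, rfl, rfl⟩ := h
  intro w hw hw'
  obtain ⟨i, hi, h9, rfl⟩ := mem_gadS.1 hw
  have c1 : 1 ≤ (OddHC.cont R).count 2 := by
    obtain ⟨z, hz, M, hM, hzM, hall, _⟩ := TyJ3V.rank (F := {cyc (sX R B S w0 0), cyc (sX R B S w0 1),
      cyc (sX R B S w0 2)}) (g := gadS (sX R B S w0)) ⟨R, B, S, w0, hq, hok, rfl, rfl⟩
    obtain ⟨c, hc, h3⟩ := h2
    have k0 := hq.cont0 w0
    have k0' : contc (cyc (sX R B S w0 0)) = OddHC.cont R + {2} := k0
    have key : ∀ c, c = cyc (sX R B S w0 0) ∨ contc c = OddHC.cont R + ({1} + {1}) →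
        (1 ≤ (contc c).count 2 ∧ 1 ≤ (contc c).count 1 ∨ 2 ≤ (contc c).count 2) →
        1 ≤ (OddHC.cont R).count 2 := by
      rintro c (rfl | h4) h5
      · rw [k0'] at h5
        simp only [Multiset.count_add, Multiset.count_singleton_self] at h5
        have h6 : Multiset.count 1 ({2} : Multiset ℕ) = 0 := by decide
        rw [h6, hq.one] at h5
        omega
      · rw [h4] at h5
        simp only [Multiset.count_add] at h5
        have h6 : Multiset.count 2 ({1} : Multiset ℕ) = 0 := by decide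
        rw [h6] at h5
        omega
    refine key c ?_ h3
    rcases hall (cyc (sX R B S w0 0)) (Or.inl rfl) with h4 | h4
    · rcases hall c hc with h5 | h5
      · exact Or.inl (h5.trans h4.symm)
      · right
        rw [h5]
        congr 1
        rw [h4, hzM] at k0'
        exact add_right_cancel k0'
    · exfalso
      rw [h4] at k0'
      have h5 := congrArg (Multiset.count 1) k0'
      simp only [Multiset.count_add, hM, hq.one, Multiset.count_singleton_self] at h5
      have h6 : Multiset.count 1 ({2} : Multiset ℕ) = 0 := by decide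
      rw [h6] at h5
      omega
  refine h'.disJ3J hq hr c1 (w0 := w0) ?_ hw' hi h9 (hq.word w0 hi)
  intro c hc
  exact ⟨fun e => hd _ (Or.inr (Or.inl rfl)) (e ▸ hc), fun e => hd _ (Or.inr (Or.inr rfl)) (e ▸ hc)⟩

end Pool.OddHC
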