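import Pool.Agent.Work.MP_8f87b2_fin.Blk2
import Pool.Agent.Work.MP_8f87b2_h35.Tsq

/-!
# The decomposition `sq` and the inflation; the star after two steps

`sq_inf`: `sq (inf t) = (inf S, inf B)`. `sq_one`: beads behind the first letter do not change `B`. `sp_two`: the star moves by
`-(2 |B| + 1)` in two steps.
-/

set_option autoImplicit false

namespace Pool.OddHC

open Finset BinaryTree Multiset Pool.OddHop

namespace Sq2

/-- the first component of `S` has full height -/
theorem first : ∀ t : BinaryTree Unit, t ≠ .nil →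
    ∃ X Y, (Tsq.sq t).1 = X △ Y ∧ Tsq.ht X + 1 = Tsq.ht t := by
  intro t
  induction t with
  | nil => intro h; exact absurd rfl h
  | node u A C ihA ihC =>
    intro _
    by_cases h : Tsq.ht A + 1 < Tsq.ht C
    · have hC : C ≠ .nil := by
        rintro rfl
        exact absurd h (by simp [Tsq.ht])
      obtain ⟨X, Y, e, hX⟩ := ihC hC
      refine ⟨A △ X, Y, ?_, ?_⟩
      · exact congrArg Prod.fst (Tsq.sq_lt h e)
      · rw [Tsq.ht_node]
        change _ = Tsq.ht (A △ C)
        rw [Tsq.ht_node]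
        omega
    · by_cases hA : A = .nil
      · subst hA
        have h1 : Tsq.ht C ≤ 1 := by
          have : Tsq.ht (BinaryTree.nil : BinaryTree Unit) = 0 := rfl
          omega
        refine ⟨.nil, .nil, ?_, ?_⟩
        · exact congrArg Prod.fst (Tsq.sq_nil h1)
        · change _ = Tsq.ht (.nil △ C)
          rw [Tsq.ht_node]
          have : Tsq.ht (BinaryTree.nil : BinaryTree Unit) = 0 := rfl
          omega
      · refine ⟨(Tsq.sq A).1, (Tsq.sq A).2, ?_, ?_⟩
        · exact congrArg Prod.fst (Tsq.sq_ge hA (by omega))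
        · change _ = Tsq.ht (A △ C)
          rw [Tsq.ht_node, (Tsq.ht_sq hA).1]
          omega

theorem htT (t : BinaryTree Unit) : Tsq.ht t = ht t := H1.ht_eq t

theorem ht_le_inf {C : BinaryTree Unit} {n : ℕ} : n + 1 < ht (inf C) ↔ n < ht C := by
  by_cases hC : C = .nil
  · subst hC
    rw [inf_nil]
    have : ht (BinaryTree.nil : BinaryTree Unit) = 0 := rfl
    omega
  · rw [ht_inf hC]
    omega

theorem sq_ne {t : BinaryTree Unit} (h : t ≠ .nil) : (Tsq.sq t).1 ≠ .nil := by
  obtain ⟨X, Y, e, _⟩ := first t h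
  rw [e]
  simp

/-- **the decomposition of the inflation** -/
theorem sq_inf : ∀ t : BinaryTree Unit, Tsq.sq (inf t) = (inf (Tsq.sq t).1, inf (Tsq.sq t).2) := by
  intro t
  induction t with
  | nil => rfl
  | node u A C ihA ihC =>
    change Tsq.sq (inf (A △ C)) = (inf (Tsq.sq (A △ C)).1, inf (Tsq.sq (A △ C)).2)
    rw [inf_node]
    have hA1 : Tsq.ht (inf1 A) = Tsq.ht A + 1 := by rw [htT, htT, ht_inf1]
    by_cases h : Tsq.ht A + 1 < Tsq.ht C
    · have hC : C ≠ .nil := by
        rintro rfl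
        exact absurd h (by simp [Tsq.ht])
      obtain ⟨X, Y, e, hX⟩ := first C hC
      have hXn : X ≠ .nil := by
        rintro rfl
        have : Tsq.ht (BinaryTree.nil : BinaryTree Unit) = 0 := rfl
        omega
      have e1 : (Tsq.sq (inf C)).1 = inf1 X △ inf Y := by rw [ihC, e, inf_node]
      have h1 : Tsq.ht (inf1 A) + 1 < Tsq.ht (inf C) := by
        rw [hA1, htT (inf C)]
        rw [htT C] at h
        exact ht_le_inf.2 h
      rw [Tsq.sq_lt h1 e1, Tsq.sq_lt h e, ihC]
      change ((inf1 A △ inf1 X) △ inf Y, _) = (inf ((A △ X) △ Y), _)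
      rw [inf_node, inf1_eq (by simp : A △ X ≠ .nil), inf_node, inf1_eq hXn]
    · have h1 : Tsq.ht (inf C) ≤ Tsq.ht (inf1 A) + 1 := by
        rw [hA1]
        by_contra h2
        apply h
        rw [htT C]
        apply ht_le_inf.1
        rw [htT (inf C)] at h2
        omega
      rw [Tsq.sq_ge (inf1_ne_nil A) h1]
      by_cases hA : A = .nil
      · subst hA
        have h2 : Tsq.ht C ≤ 1 := by
          have : Tsq.ht (BinaryTree.nil : BinaryTree Unit) = 0 := rfl
          omega
        rw [Tsq.sq_nil h2]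
        change ((Tsq.sq (.nil △ .nil)).1 △ (Tsq.sq (.nil △ .nil)).2, inf C) = (inf (.nil △ .nil), inf C)
        rw [inf_node]
        rfl
      · rw [Tsq.sq_ge hA (by omega), inf1_eq hA, ihA]
        change (inf (Tsq.sq A).1 △ inf (Tsq.sq A).2, inf C) =
          (inf ((Tsq.sq A).1 △ (Tsq.sq A).2), inf C)
        rw [inf_node, inf1_eq (sq_ne hA)]

/-- beads behind the first letter do not change the condition -/
theorem sq_one (A C : BinaryTree Unit) (a : ℕ) :
    (Tsq.sq (lv a (inf1 A) △ inf C)).2 = inf (Tsq.sq (A △ C)).2 := by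
  have hlv : Tsq.ht (lv a (inf1 A)) = Tsq.ht A + 1 := by
    rw [htT, htT, ht_lv a (inf1_ne_nil A), ht_inf1]
  have hne : lv a (inf1 A) ≠ .nil := lv_ne_nil (inf1_ne_nil A)
  by_cases h : Tsq.ht A + 1 < Tsq.ht C
  · have hC : C ≠ .nil := by
      rintro rfl
      exact absurd h (by simp [Tsq.ht])
    obtain ⟨X, Y, e, hX⟩ := first C hC
    have e1 : (Tsq.sq (inf C)).1 = inf1 X △ inf Y := by rw [sq_inf, e, inf_node]
    have h1 : Tsq.ht (lv a (inf1 A)) + 1 < Tsq.ht (inf C) := by
      rw [hlv, htT (inf C)]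
      rw [htT C] at h
      exact ht_le_inf.2 h
    rw [Tsq.sq_lt h1 e1, Tsq.sq_lt h e, sq_inf]
  · have h1 : Tsq.ht (inf C) ≤ Tsq.ht (lv a (inf1 A)) + 1 := by
      rw [hlv]
      by_contra h2
      apply h
      rw [htT C]
      apply ht_le_inf.1
      rw [htT (inf C)] at h2
      omega
    rw [Tsq.sq_ge hne h1]
    by_cases hA : A = .nil
    · subst hA
      have h2 : Tsq.ht C ≤ 1 := by
        have : Tsq.ht (BinaryTree.nil : BinaryTree Unit) = 0 := rfl
        omega
      rw [Tsq.sq_nil h2]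
    · rw [Tsq.sq_ge hA (by omega)]

/-! ### The star -/

variable {k : ℕ}

/-- the place of the star after one step -/
theorem Vo_of {x : X k} {y : BinaryTree Unit} {a b : List Bool} (hx : wd x.1 = a ++ true :: b)
    (hy : wd y = b.map not ++ false :: a.map not) : Vo x = ((a.length + 1 : ℕ) : ZMod (2 * k + 1)) := by
  have e1 : cw x.1 = (false :: a.map not) ++ (false :: b.map not) := by
    unfold cw
    rw [hx]
    simp
  have e2 : (cw x.1).rotate (a.length + 1) = sl y := by
    have : a.length + 1 = (false :: a.map not).length := by simp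
    rw [e1, this, List.rotate_append_length_eq]
    unfold sl
    rw [hy]
    simp
  have e3 := Tsq.cw_rot' x
  have hlen : (cw x.1).length = 2 * k + 1 := cw_len x
  have hlt : (Vo x).val < 2 * k + 1 := ZMod.val_lt _
  have ha : a.length + 1 ≤ 2 * k + 1 := by
    have h1 := congrArg List.length e1
    rw [hlen] at h1
    simp at h1
    omega
  have e4 : (sl y).rotate ((Vo x).val + (2 * k + 1) - (a.length + 1)) = sl (TF x).1 := by
    have key : ∀ v : ℕ, (cw x.1).rotate (v + (2 * k + 1)) = (cw x.1).rotate v := by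
      intro v
      rw [← List.rotate_mod _ (v + (2 * k + 1)), hlen, Nat.add_mod_right, ← hlen, List.rotate_mod]
    rw [← e2, List.rotate_rotate, ← e3, ← key (Vo x).val]
    congr 1
    omega
  have hly : (sl y).length = 2 * k + 1 := by rw [← e2, List.length_rotate, hlen]
  rw [← List.rotate_mod, hly] at e4
  have e5 := (sl_rotate (t := y) (t' := (TF x).1) (by rw [hly]; exact Nat.mod_lt _ (by omega)) e4).1
  have e6 : (((Vo x).val + (2 * k + 1) - (a.length + 1) : ℕ) : ZMod (2 * k + 1)) = 0 := by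
    rw [ZMod.natCast_eq_zero_iff]
    exact Nat.dvd_of_mod_eq_zero e5
  rw [Nat.cast_sub (by omega), Nat.cast_add, ZMod.natCast_zmod_val, ZMod.natCast_self, add_zero] at e6
  exact sub_eq_zero.1 e6

/-- **two steps of the star** -/
theorem sp_two (x : X k) (hx : x.1 ≠ .nil) :
    sp x 2 = -((2 * (Tsq.sq x.1).2.numNodes + 1 : ℕ) : ZMod (2 * k + 1)) := by
  obtain ⟨a, c, h1, h2, h3, h4, h5, h6, h7⟩ := Tsq.sq_spec x.1 hx
  obtain ⟨t, ht⟩ := Tsq.T_tree h3 h4 h5 h6 h7
  have hy1 : wd t = (c ++ false :: wd (Tsq.sq x.1).2).map not ++ false :: a.map not := by rw [ht]; simp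
  have e1 : (TF x).1 = t := Tsq.TF_of h1 hy1
  have v1 := Vo_of h1 hy1
  have v2 : Vo (TF x) = (((c.map not).length + 1 : ℕ) : ZMod (2 * k + 1)) := by
    apply Vo_of (y := app (Tsq.sq x.1).2 (Tsq.sq x.1).1) (a := c.map not)
      (b := (wd (Tsq.sq x.1).2).map not ++ false :: a.map not)
    · rw [e1, ht]
    · rw [wd_app, h2]
      simp [Function.comp_def]
  have e2 : sp x 2 = Vo x + Vo (TF x) := by
    rw [sp_succ, sp_succ, sp_zero, zero_add, pow_zero, pow_one, Equiv.Perm.one_apply, TT_apply]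
  have hlen : (wd x.1).length = 2 * k := by rw [wd_length, X_num]
  have hB : (wd (Tsq.sq x.1).2).length = 2 * (Tsq.sq x.1).2.numNodes := wd_length _
  have e3 : a.length + 1 + (c.length + 1) + 2 * (Tsq.sq x.1).2.numNodes = 2 * k := by
    rw [← hlen, h1, ← hB]
    simp
    ring
  rw [e2, v1, v2, List.length_map]
  have e4 : ((a.length + 1 + (c.length + 1) + (2 * (Tsq.sq x.1).2.numNodes + 1) : ℕ) : ZMod (2 * k + 1)) = 0 := by
    have : a.length + 1 + (c.length + 1) + (2 * (Tsq.sq x.1).2.numNodes + 1) = 2 * k + 1 := by omega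
    rw [this, ZMod.natCast_self]
  rw [eq_neg_iff_add_eq_zero, ← e4]
  push_cast
  ring

end Sq2

end Pool.OddHC
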